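import Mathlib

open Filter Topology Set

namespace Pool.Agent.Results.MP_a2bddf_an.RuziewiczModulus

/-- A positive function considered for `0 < |h| < δ`, depending only on `|h|` (take `|h| = |k|` in
`mono`), nondecreasing in `|h|`, and tending to `0` as `h → 0`. -/
structure IsRate (δ : ℝ) (w : ℝ → ℝ) : Prop where
  pos : ∀ h, 0 < |h| → |h| < δ → 0 < w h
  mono : ∀ h k, 0 < |h| → |h| ≤ |k| → |k| < δ → w h ≤ w k
  tendsto_zero : Tendsto w (𝓝[≠] 0) (𝓝 0)

/-- distance to the nearest integer -/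
noncomputable def tri (x : ℝ) : ℝ := |x - round x|

lemma tri_nonneg (x : ℝ) : 0 ≤ tri x := abs_nonneg _

lemma tri_le (x : ℝ) : tri x ≤ 1 / 2 := abs_sub_round x

lemma tri_sub_le (x y : ℝ) : |tri x - tri y| ≤ |x - y| := by
  have h : ∀ x y : ℝ, tri x ≤ |x - y| + tri y := by
    intro x y
    calc tri x ≤ |x - (round y : ℤ)| := round_le x (round y)
      _ = |(x - y) + (y - round y)| := by ring_nf
      _ ≤ |x - y| + |y - round y| := abs_add_le _ _
  rw [abs_sub_le_iff]
  have h1 := h x y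
  have h2 := h y x
  rw [abs_sub_comm y x] at h2
  constructor <;> linarith

lemma tri_osc (y : ℝ) : ∃ z : ℝ, |z - y| ≤ 1 / 2 ∧ 1 / 4 ≤ |tri z - tri y| := by
  by_cases h : 1 / 4 ≤ tri y
  · refine ⟨(round y : ℤ), ?_, ?_⟩
    · rw [abs_sub_comm]; exact abs_sub_round y
    · have : tri ((round y : ℤ) : ℝ) = 0 := by
        unfold tri
        simp
      rw [this, zero_sub, abs_neg, abs_of_nonneg (tri_nonneg y)]
      exact h
  · push Not at h
    refine ⟨⌊y⌋ + 1 / 2, ?_, ?_⟩
    · have h1 := Int.floor_le y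
      have h2 := Int.lt_floor_add_one y
      rw [abs_le]
      constructor <;> linarith
    · have : (1 : ℝ) / 2 ≤ tri (⌊y⌋ + 1 / 2) := by
        unfold tri
        set n := round ((⌊y⌋ : ℝ) + 1 / 2)
        rcases le_or_gt n ⌊y⌋ with hn | hn
        · have : (n : ℝ) ≤ (⌊y⌋ : ℝ) := by exact_mod_cast hn
          rw [le_abs]
          left
          linarith
        · have h3 : ⌊y⌋ + 1 ≤ n := hn
          have : (⌊y⌋ : ℝ) + 1 ≤ (n : ℝ) := by exact_mod_cast h3
          rw [le_abs]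
          right
          linarith
      rw [le_abs]
      left
      linarith

/-- The good scales: `w h / h ≥ w t / (2 t)` for all `0 < h ≤ t`. -/
def Good (δ : ℝ) (w : ℝ → ℝ) (t : ℝ) : Prop :=
  0 < t ∧ t < δ ∧ ∀ h, 0 < h → h ≤ t → w t / t ≤ 2 * (w h / h)

lemma exists_good {δ : ℝ} (hδ : 0 < δ) {w : ℝ → ℝ} (hpos : ∀ h, 0 < h → h < δ → 0 < w h)
    (hmono : ∀ h k, 0 < h → h ≤ k → k < δ → w h ≤ w k)
    (h1 : Tendsto (fun h => w h / h) (𝓝[>] 0) atTop) (ε : ℝ) (hε : 0 < ε) :
    ∃ t, Good δ w t ∧ t < ε := by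
  set e := min ε δ / 2 with he
  have he0 : 0 < e := by positivity
  have heε : e < ε := by
    have : min ε δ ≤ ε := min_le_left _ _
    linarith [lt_min hε hδ]
  have heδ : e < δ := by
    have : min ε δ ≤ δ := min_le_right _ _
    linarith [lt_min hε hδ]
  have h2 := h1.eventually (eventually_ge_atTop 1)
  rw [eventually_nhdsWithin_iff] at h2
  obtain ⟨η, hη, h3⟩ := Metric.eventually_nhds_iff.mp h2
  set η' := min η e / 2 with hη'
  have hη0 : 0 < η' := by positivity
  have hη1 : η' < η := by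
    have : min η e ≤ η := min_le_left _ _
    linarith [lt_min hη he0]
  have hη2 : η' < e := by
    have : min η e ≤ e := min_le_right _ _
    linarith [lt_min hη he0]
  set S := (fun t => w t / t) '' Ioc 0 e with hS
  have hlow : ∀ y ∈ S, min 1 (w η' / e) ≤ y := by
    rintro y ⟨t, ht, rfl⟩
    rcases le_or_gt t η' with h | h
    · have : dist t 0 < η := by
        rw [Real.dist_eq, sub_zero, abs_of_pos ht.1]
        linarith
      exact (min_le_left _ _).trans (h3 this ht.1)
    · refine (min_le_right _ _).trans ?_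
      have h4 : w η' ≤ w t := hmono _ _ hη0 h.le (ht.2.trans_lt heδ)
      exact div_le_div₀ (hpos _ ht.1 (ht.2.trans_lt heδ)).le h4 ht.1 ht.2
  have hne : S.Nonempty := ⟨_, e, ⟨he0, le_rfl⟩, rfl⟩
  have hm : 0 < sInf S := by
    refine lt_of_lt_of_le ?_ (le_csInf hne hlow)
    exact lt_min one_pos (div_pos (hpos _ hη0 (hη2.trans heδ)) he0)
  obtain ⟨y, ⟨t, ht, rfl⟩, hy⟩ := exists_lt_of_csInf_lt hne (show sInf S < 2 * sInf S by linarith)
  refine ⟨t, ⟨ht.1, ht.2.trans_lt heδ, fun h h0 hht => ?_⟩, ht.2.trans_lt heε⟩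
  have h5 : sInf S ≤ w h / h := csInf_le ⟨_, hlow⟩ ⟨h, ⟨h0, hht.trans ht.2⟩, rfl⟩
  simp only at hy
  linarith

lemma exists_next {δ : ℝ} (hδ : 0 < δ) {w : ℝ → ℝ} (hpos : ∀ h, 0 < h → h < δ → 0 < w h)
    (hmono : ∀ h k, 0 < h → h ≤ k → k < δ → w h ≤ w k) (h0 : Tendsto w (𝓝[>] 0) (𝓝 0))
    (h1 : Tendsto (fun h => w h / h) (𝓝[>] 0) atTop) (t : ℝ) (ht : Good δ w t) :
    ∃ s, Good δ w s ∧ s ≤ t / 2 ∧ w s ≤ w t / 8 ∧ 16 * (w t / t) ≤ w s / s := by
  have hwt : 0 < w t := hpos t ht.1 ht.2.1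
  have e1 := h0.eventually (ge_mem_nhds (show (0 : ℝ) < w t / 8 by positivity))
  have e2 := h1.eventually (eventually_ge_atTop (16 * (w t / t)))
  have e3 := e1.and e2
  rw [eventually_nhdsWithin_iff] at e3
  obtain ⟨η, hη, h3⟩ := Metric.eventually_nhds_iff.mp e3
  obtain ⟨s, hs, hsε⟩ := exists_good hδ hpos hmono h1 (min η (t / 2)) (lt_min hη (by linarith [ht.1]))
  have h4 : dist s 0 < η := by
    rw [Real.dist_eq, sub_zero, abs_of_pos hs.1]
    exact hsε.trans_le (min_le_left _ _)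
  exact ⟨s, hs, (hsε.trans_le (min_le_right _ _)).le, h3 h4 hs.1⟩

lemma exists_scales {δ : ℝ} (hδ : 0 < δ) {w : ℝ → ℝ} (hpos : ∀ h, 0 < h → h < δ → 0 < w h)
    (hmono : ∀ h k, 0 < h → h ≤ k → k < δ → w h ≤ w k) (h0 : Tendsto w (𝓝[>] 0) (𝓝 0))
    (h1 : Tendsto (fun h => w h / h) (𝓝[>] 0) atTop) :
    ∃ t : ℕ → ℝ, ∀ k, Good δ w (t k) ∧ t (k + 1) ≤ t k / 2 ∧ w (t (k + 1)) ≤ w (t k) / 8 ∧
      16 * (w (t k) / t k) ≤ w (t (k + 1)) / t (k + 1) := by
  obtain ⟨t0, ht0, -⟩ := exists_good hδ hpos hmono h1 1 one_pos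
  choose g hg using fun t : {t // Good δ w t} => exists_next hδ hpos hmono h0 h1 t.1 t.2
  let F : ℕ → {t // Good δ w t} := fun k => Nat.rec ⟨t0, ht0⟩ (fun _ t => ⟨g t, (hg t).1⟩) k
  exact ⟨fun k => (F k).1, fun k => ⟨(F k).2, (hg (F k)).2⟩⟩

theorem core {δ : ℝ} (hδ : 0 < δ) {w φ : ℝ → ℝ} (hpos : ∀ h, 0 < h → h < δ → 0 < w h)
    (hmono : ∀ h k, 0 < h → h ≤ k → k < δ → w h ≤ w k) (h0 : Tendsto w (𝓝[>] 0) (𝓝 0))
    (h1 : Tendsto (fun h => w h / h) (𝓝[>] 0) atTop)
    (hpos' : ∀ h, 0 < h → h < δ → 0 < φ h)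
    (hmono' : ∀ h k, 0 < h → h ≤ k → k < δ → φ h ≤ φ k)
    (h2 : Tendsto (fun h => w h / φ h) (𝓝[>] 0) atTop) :
    ∃ f : ℝ → ℝ, (∀ x h, 0 < |h| → |h| < δ → |f (x + h) - f x| < w |h|) ∧
      ∀ x C ε, 0 < ε → ∃ h, 0 < |h| ∧ |h| < ε ∧ C < |f (x + h) - f x| / φ |h| := by
  obtain ⟨t, ht⟩ := exists_scales hδ hpos hmono h0 h1
  have tpos : ∀ k, 0 < t k := fun k => (ht k).1.1
  have tδ : ∀ k, t k < δ := fun k => (ht k).1.2.1
  set A : ℕ → ℝ := fun k => w (t k) / 4 with hA
  have Apos : ∀ k, 0 < A k := fun k => by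
    have := hpos _ (tpos k) (tδ k)
    simp only [hA]; positivity
  have A8 : ∀ k, A (k + 1) ≤ A k / 8 := fun k => by
    have := (ht k).2.2.1
    simp only [hA]; linarith
  set B : ℕ → ℝ := fun k => A k / t k with hB
  have Bpos : ∀ k, 0 < B k := fun k => div_pos (Apos k) (tpos k)
  have B16 : ∀ k, 16 * B k ≤ B (k + 1) := fun k => by
    have := (ht k).2.2.2
    simp only [hB, hA]
    rw [div_right_comm, div_right_comm (w (t (k + 1)))]
    linarith
  have Bsum : ∀ j, ∑ k ∈ Finset.range j, B k ≤ B j / 15 := by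
    intro j
    induction j with
    | zero => simp; exact div_nonneg (Bpos 0).le (by norm_num)
    | succ j ih =>
      rw [Finset.sum_range_succ]
      have := B16 j
      linarith
  have Ageo : ∀ j i, A (i + j) ≤ A j * (1 / 8) ^ i := by
    intro j i
    induction i with
    | zero => simp
    | succ i ih =>
      have := A8 (i + j)
      rw [show i + 1 + j = i + j + 1 by ring, pow_succ]
      linarith
  have Agsum : Summable fun i : ℕ => ((1 : ℝ) / 8) ^ i :=
    summable_geometric_of_lt_one (by norm_num) (by norm_num)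
  have AsumJ : ∀ j, Summable fun i => A (i + j) := fun j =>
    Summable.of_nonneg_of_le (fun i => (Apos _).le) (Ageo j) (Agsum.mul_left _)
  have Asum : Summable A := AsumJ 0
  have Atsum : ∀ j, ∑' i, A (i + j) ≤ A j * (8 / 7) := by
    intro j
    calc ∑' i, A (i + j) ≤ ∑' i : ℕ, A j * (1 / 8) ^ i :=
          (AsumJ j).tsum_le_tsum (Ageo j) (Agsum.mul_left _)
      _ = A j * (8 / 7) := by
          rw [tsum_mul_left, tsum_geometric_of_lt_one (by norm_num) (by norm_num)]
          norm_num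
  have tzero : ∀ ε, 0 < ε → ∃ K, ∀ k, K ≤ k → t k < ε := by
    intro ε hε
    have hgeo : ∀ k, t k ≤ t 0 * (1 / 2) ^ k := by
      intro k
      induction k with
      | zero => simp
      | succ k ih =>
        have := (ht k).2.1
        rw [pow_succ]
        linarith
    have : Tendsto (fun k : ℕ => t 0 * (1 / 2 : ℝ) ^ k) atTop (𝓝 (t 0 * 0)) :=
      (tendsto_pow_atTop_nhds_zero_of_lt_one (by norm_num) (by norm_num)).const_mul _
    rw [mul_zero] at this
    obtain ⟨K, hK⟩ := eventually_atTop.mp (this.eventually (gt_mem_nhds hε))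
    exact ⟨K, fun k hk => (hgeo k).trans_lt (hK k hk)⟩
  -- the function
  set s : ℕ → ℝ → ℝ := fun k x => A k * tri (x / t k) with hs
  have ssum : ∀ x, Summable fun k => s k x := by
    intro x
    refine Summable.of_nonneg_of_le (fun k => mul_nonneg (Apos k).le (tri_nonneg _)) (fun k => ?_)
      Asum
    have := tri_le (x / t k)
    have := Apos k
    simp only [hs]
    nlinarith
  have sb1 : ∀ k x h, |s k (x + h) - s k x| ≤ A k / 2 := by
    intro k x h
    simp only [hs]
    rw [← mul_sub, abs_mul, abs_of_pos (Apos k)]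
    have h3 : |tri ((x + h) / t k) - tri (x / t k)| ≤ 1 / 2 := by
      have a1 := tri_nonneg ((x + h) / t k)
      have a2 := tri_le ((x + h) / t k)
      have a3 := tri_nonneg (x / t k)
      have a4 := tri_le (x / t k)
      rw [abs_le]
      constructor <;> linarith
    have := mul_le_mul_of_nonneg_left h3 (Apos k).le
    linarith
  have sb2 : ∀ k x h, |s k (x + h) - s k x| ≤ B k * |h| := by
    intro k x h
    simp only [hs]
    rw [← mul_sub, abs_mul, abs_of_pos (Apos k)]
    have h3 := tri_sub_le ((x + h) / t k) (x / t k)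
    have h4 : (x + h) / t k - x / t k = h / t k := by ring
    rw [h4, abs_div, abs_of_pos (tpos k)] at h3
    have h5 := mul_le_mul_of_nonneg_left h3 (Apos k).le
    calc _ ≤ A k * (|h| / t k) := h5
      _ = B k * |h| := by simp only [hB]; ring
  set f : ℝ → ℝ := fun x => ∑' k, s k x with hf
  have fdiff : ∀ x h j, f (x + h) - f x = (∑ k ∈ Finset.range j, (s k (x + h) - s k x)) +
      ∑' i, (s (i + j) (x + h) - s (i + j) x) := by
    intro x h j
    simp only [hf]
    rw [← (ssum (x + h)).tsum_sub (ssum x)]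
    exact (((ssum (x + h)).sub (ssum x)).sum_add_tsum_nat_add j).symm
  have tail : ∀ x h j, |∑' i, (s (i + j) (x + h) - s (i + j) x)| ≤ A j * (4 / 7) := by
    intro x h j
    have hsm : Summable fun i => |s (i + j) (x + h) - s (i + j) x| :=
      Summable.of_nonneg_of_le (fun i => abs_nonneg _) (fun i => sb1 (i + j) x h)
        ((AsumJ j).div_const 2)
    calc |∑' i, (s (i + j) (x + h) - s (i + j) x)|
        ≤ ∑' i, |s (i + j) (x + h) - s (i + j) x| := by
          have := norm_tsum_le_tsum_norm (f := fun i => s (i + j) (x + h) - s (i + j) x) hsm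
          simpa only [Real.norm_eq_abs] using this
      _ ≤ ∑' i, A (i + j) / 2 := hsm.tsum_le_tsum (fun i => sb1 (i + j) x h)
          ((AsumJ j).div_const 2)
      _ = (∑' i, A (i + j)) / 2 := tsum_div_const
      _ ≤ A j * (4 / 7) := by linarith [Atsum j]
  have head : ∀ x h j, |∑ k ∈ Finset.range j, (s k (x + h) - s k x)| ≤ B j / 15 * |h| := by
    intro x h j
    calc _ ≤ ∑ k ∈ Finset.range j, |s k (x + h) - s k x| := Finset.abs_sum_le_sum_abs _ _
      _ ≤ ∑ k ∈ Finset.range j, B k * |h| := Finset.sum_le_sum fun k _ => sb2 k x h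
      _ = (∑ k ∈ Finset.range j, B k) * |h| := by rw [Finset.sum_mul]
      _ ≤ _ := mul_le_mul_of_nonneg_right (Bsum j) (abs_nonneg _)
  refine ⟨f, ?_, ?_⟩
  · intro x h hh hhδ
    have hex : ∃ j, t j ≤ |h| := by
      obtain ⟨K, hK⟩ := tzero |h| hh
      exact ⟨K, (hK K le_rfl).le⟩
    classical
    have hj := Nat.find_spec hex
    have hjmin := fun m (hm : m < Nat.find hex) => Nat.find_min hex hm
    set j := Nat.find hex
    have hwj : A j ≤ w |h| / 4 := by
      have := hmono (t j) |h| (tpos j) hj hhδ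
      simp only [hA]; linarith
    have hwh : 0 < w |h| := hpos _ hh hhδ
    have hhead : |∑ k ∈ Finset.range j, (s k (x + h) - s k x)| ≤ w |h| * (8 / 15) := by
      rcases Nat.eq_zero_or_pos j with h0' | h0'
      · rw [h0']; simp; exact hwh.le
      · obtain ⟨m, hm⟩ : ∃ m, j = m + 1 := ⟨j - 1, by omega⟩
        have hmj : ¬ t m ≤ |h| := hjmin m (by omega)
        push Not at hmj
        have hgood := (ht m).1.2.2 |h| hh hmj.le
        have hBm : B m * |h| ≤ w |h| / 2 := by
          have : B m ≤ (w |h| / |h|) / 2 := by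
            simp only [hB, hA]
            rw [div_right_comm]
            linarith
          calc B m * |h| ≤ (w |h| / |h|) / 2 * |h| := mul_le_mul_of_nonneg_right this hh.le
            _ = w |h| / 2 := by field_simp
        rw [hm, Finset.sum_range_succ]
        calc _ ≤ |∑ k ∈ Finset.range m, (s k (x + h) - s k x)| + |s m (x + h) - s m x| :=
              abs_add_le _ _
          _ ≤ B m / 15 * |h| + B m * |h| := add_le_add (head x h m) (sb2 m x h)
          _ = (16 / 15) * (B m * |h|) := by ring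
          _ ≤ _ := by linarith
    rw [fdiff x h j]
    calc _ ≤ |∑ k ∈ Finset.range j, (s k (x + h) - s k x)| +
          |∑' i, (s (i + j) (x + h) - s (i + j) x)| := abs_add_le _ _
      _ ≤ w |h| * (8 / 15) + A j * (4 / 7) := add_le_add hhead (tail x h j)
      _ < w |h| := by linarith
  · intro x C ε hε
    have e1 := h2.eventually (eventually_gt_atTop (40 * C))
    rw [eventually_nhdsWithin_iff] at e1
    obtain ⟨η, hη, h3⟩ := Metric.eventually_nhds_iff.mp e1
    obtain ⟨K, hK⟩ := tzero (min η ε) (lt_min hη hε)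
    have hKK := hK K le_rfl
    have hratio : 40 * C < w (t K) / φ (t K) := by
      refine h3 ?_ (tpos K)
      rw [Real.dist_eq, sub_zero, abs_of_pos (tpos K)]
      exact hKK.trans_le (min_le_left _ _)
    obtain ⟨z, hz1, hz2⟩ := tri_osc (x / t K)
    set h := t K * z - x with hh
    have hxh : x + h = t K * z := by rw [hh]; ring
    have hdiv : (x + h) / t K = z := by
      rw [hxh, mul_div_assoc, mul_comm, div_mul_cancel₀ _ (tpos K).ne']
    have habs : |h| = t K * |z - x / t K| := by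
      rw [← abs_of_pos (tpos K), ← abs_mul, abs_of_pos (tpos K), mul_sub,
        mul_div_cancel₀ _ (tpos K).ne']
    have hle : |h| ≤ t K / 2 := by
      rw [habs]
      have := mul_le_mul_of_nonneg_left hz1 (tpos K).le
      linarith
    have hne : 0 < |h| := by
      rw [habs]
      refine mul_pos (tpos K) (abs_pos.mpr fun hz => ?_)
      rw [sub_eq_zero.mp hz, sub_self, abs_zero] at hz2
      norm_num at hz2
    have hlt : |h| < t K := by linarith [tpos K]
    have hmain : A K / 4 ≤ |s K (x + h) - s K x| := by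
      simp only [hs]
      rw [hdiv, ← mul_sub, abs_mul, abs_of_pos (Apos K)]
      have := mul_le_mul_of_nonneg_left hz2 (Apos K).le
      linarith
    have hBK : B K / 15 * |h| ≤ A K / 30 := by
      have : B K * |h| ≤ A K / 2 := by
        calc B K * |h| ≤ B K * (t K / 2) := mul_le_mul_of_nonneg_left hle (Bpos K).le
          _ = A K / 2 := by simp only [hB]; have := (tpos K).ne'; field_simp
      linarith
    have hdecomp := fdiff x h (K + 1)
    rw [Finset.sum_range_succ] at hdecomp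
    have hhead := head x h K
    have htail := tail x h (K + 1)
    have hA8 := A8 K
    have hlow : A K / 10 ≤ |f (x + h) - f x| := by
      rw [hdecomp]
      set a := ∑ k ∈ Finset.range K, (s k (x + h) - s k x)
      set b := s K (x + h) - s K x
      set c := ∑' i, (s (i + (K + 1)) (x + h) - s (i + (K + 1)) x)
      have h5 : |b| ≤ |a + b + c| + |a| + |c| := by
        calc |b| = |(a + b + c) + (-a) + (-c)| := by ring_nf
          _ ≤ |(a + b + c) + (-a)| + |(-c)| := abs_add_le _ _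
          _ ≤ |a + b + c| + |(-a)| + |(-c)| := by
              gcongr; exact abs_add_le _ _
          _ = _ := by rw [abs_neg, abs_neg]
      have := Apos K
      linarith
    refine ⟨h, hne, hlt.trans (hKK.trans_le (min_le_right _ _)), ?_⟩
    have hφh : 0 < φ |h| := hpos' _ hne (hlt.trans (tδ K))
    have hφK : φ |h| ≤ φ (t K) := hmono' _ _ hne hlt.le (tδ K)
    have hφK0 : 0 < φ (t K) := hpos' _ (tpos K) (tδ K)
    rw [lt_div_iff₀ hφK0] at hratio
    rw [lt_div_iff₀ hφh]
    rcases le_or_gt C 0 with hC | hC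
    · have h6 : C * φ |h| ≤ 0 := mul_nonpos_of_nonpos_of_nonneg hC hφh.le
      have := Apos K
      linarith
    · have h6 : C * φ |h| ≤ C * φ (t K) := mul_le_mul_of_nonneg_left hφK hC.le
      have h7 : A K = w (t K) / 4 := rfl
      linarith

/-- **Affirmative answer to Q1 (Ruziewicz's question).** For every pair `w, φ` of rates with
`w(h)/|h| → ∞` and `w(h)/φ(h) → ∞` there is `f : ℝ → ℝ` with `|f(x+h) - f(x)| < w(h)` for all `x`
and `0 < |h| < δ`, and `limsup_{h → 0} |(f(x+h) - f(x)) / φ(h)| = ∞` at every `x`. -/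
theorem result (δ : ℝ) (hδ : 0 < δ) (w φ : ℝ → ℝ) (hw : IsRate δ w) (hφ : IsRate δ φ)
    (h1 : Tendsto (fun h => w h / |h|) (𝓝[≠] 0) atTop)
    (h2 : Tendsto (fun h => w h / φ h) (𝓝[≠] 0) atTop) :
    ∃ f : ℝ → ℝ, (∀ x h, 0 < |h| → |h| < δ → |f (x + h) - f x| < w h) ∧
      ∀ x, limsup (fun h => ((|(f (x + h) - f x) / φ h| : ℝ) : EReal)) (𝓝[≠] 0) = ⊤ := by
  have hle : 𝓝[>] (0 : ℝ) ≤ 𝓝[≠] 0 := nhdsWithin_mono _ fun x (hx : 0 < x) => hx.ne'
  have hpos : ∀ h, 0 < h → h < δ → 0 < w h := fun h h0 hd =>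
    hw.pos h (by rwa [abs_of_pos h0]) (by rwa [abs_of_pos h0])
  have hpos' : ∀ h, 0 < h → h < δ → 0 < φ h := fun h h0 hd =>
    hφ.pos h (by rwa [abs_of_pos h0]) (by rwa [abs_of_pos h0])
  have hmono : ∀ h k, 0 < h → h ≤ k → k < δ → w h ≤ w k := fun h k h0 hk hd => by
    have hk0 := h0.trans_le hk
    exact hw.mono h k (by rwa [abs_of_pos h0]) (by rwa [abs_of_pos h0, abs_of_pos hk0])
      (by rwa [abs_of_pos hk0])
  have hmono' : ∀ h k, 0 < h → h ≤ k → k < δ → φ h ≤ φ k := fun h k h0 hk hd => by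
    have hk0 := h0.trans_le hk
    exact hφ.mono h k (by rwa [abs_of_pos h0]) (by rwa [abs_of_pos h0, abs_of_pos hk0])
      (by rwa [abs_of_pos hk0])
  have h1' : Tendsto (fun h => w h / h) (𝓝[>] 0) atTop := by
    refine (h1.mono_left hle).congr' ?_
    filter_upwards [self_mem_nhdsWithin] with h hh
    rw [abs_of_pos hh]
  have hevw : ∀ h, 0 < |h| → |h| < δ → w |h| = w h := fun h h0 hd =>
    le_antisymm (hw.mono _ _ (by rwa [abs_abs]) (by rw [abs_abs]) hd)
      (hw.mono _ _ h0 (by rw [abs_abs]) (by rwa [abs_abs]))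
  have hevφ : ∀ h, 0 < |h| → |h| < δ → φ |h| = φ h := fun h h0 hd =>
    le_antisymm (hφ.mono _ _ (by rwa [abs_abs]) (by rw [abs_abs]) hd)
      (hφ.mono _ _ h0 (by rw [abs_abs]) (by rwa [abs_abs]))
  obtain ⟨f, hf1, hf2⟩ := core hδ hpos hmono (hw.tendsto_zero.mono_left hle) h1' hpos' hmono'
    (h2.mono_left hle)
  refine ⟨f, fun x h h0 hd => ?_, fun x => ?_⟩
  · rw [← hevw h h0 hd]
    exact hf1 x h h0 hd
  · have hfr : ∀ C : ℝ, (C : EReal) ≤
        limsup (fun h => ((|(f (x + h) - f x) / φ h| : ℝ) : EReal)) (𝓝[≠] 0) := by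
      intro C
      refine le_limsup_of_frequently_le ?_
      rw [(nhdsWithin_hasBasis Metric.nhds_basis_ball _).frequently_iff]
      intro ε hε
      obtain ⟨h, h0, hlt, hC⟩ := hf2 x C (min ε δ) (lt_min hε hδ)
      have hhδ : |h| < δ := hlt.trans_le (min_le_right _ _)
      refine ⟨h, ⟨?_, abs_pos.mp h0⟩, ?_⟩
      · rw [Metric.mem_ball, Real.dist_eq, sub_zero]
        exact hlt.trans_le (min_le_left _ _)
      · rw [EReal.coe_le_coe_iff, abs_div, ← hevφ h h0 hhδ,
          abs_of_pos (hpos' _ h0 hhδ)]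
        exact hC.le
    rw [EReal.eq_top_iff_forall_lt]
    intro y
    calc (y : EReal) < ((y + 1 : ℝ) : EReal) := by
          rw [EReal.coe_lt_coe_iff]; linarith
      _ ≤ _ := hfr (y + 1)

end Pool.Agent.Results.MP_a2bddf_an.RuziewiczModulus
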